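import Pool.Agent.Helper25.PCap.GoalsTools

/-!
# Packet HOPF: Hopf's boundary lemma at the axis
-/

set_option autoImplicit false

open Set Filter Topology
open scoped ContDiff Real

noncomputable section

namespace Pool.Agent.Helper89.PCap.Hopf

open Pool.Agent.Helper25.PCap

theorem second_nonneg {f : ℝ → ℝ} {x : ℝ} (hmin : IsLocalMin f x) (hc : ContinuousAt f x) :
    0 ≤ deriv (deriv f) x := by
  by_contra h
  rw [not_le] at h
  have hd0 : deriv f x = 0 := hmin.deriv_eq_zero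
  have hmax : IsLocalMax f x := isLocalMax_of_deriv_deriv_neg h hd0 hc
  have h1 : f =ᶠ[𝓝 x] fun _ => f x := by
    have h2 : ∀ᶠ y in 𝓝 x, f x ≤ f y := hmin
    have h3 : ∀ᶠ y in 𝓝 x, f y ≤ f x := hmax
    filter_upwards [h2, h3] with y h4 h5
    exact le_antisymm h5 h4
  have h2 : deriv f =ᶠ[𝓝 x] deriv fun _ => f x := h1.deriv
  have h3 : deriv (deriv f) x = 0 := by
    rw [h2.deriv_eq]
    simp
  rw [h3] at h
  exact lt_irrefl _ h

theorem min_test {g g' : ℝ → ℝ} {g2 : ℝ} (hg : ∀ᶠ s in 𝓝 (0 : ℝ), HasDerivAt g (g' s) s)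
    (hg2 : HasDerivAt g' g2 0) (hmin : IsLocalMin g 0) : g' 0 = 0 ∧ 0 ≤ g2 := by
  have h0 : HasDerivAt g (g' 0) 0 := hg.self_of_nhds
  refine ⟨hmin.hasDerivAt_eq_zero h0, ?_⟩
  have h1 : deriv g =ᶠ[𝓝 0] g' := by
    filter_upwards [hg] with s hs
    exact hs.deriv
  have h2 : deriv (deriv g) 0 = g2 := by
    rw [h1.deriv_eq]
    exact hg2.deriv
  rw [← h2]
  exact second_nonneg hmin h0.continuousAt

theorem has1 (z : ℝ × ℝ) (s : ℝ) :
    HasDerivAt (fun s : ℝ => ((z.1 + s, z.2) : ℝ × ℝ)) (1, 0) s :=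
  HasDerivAt.prodMk ((hasDerivAt_id s).const_add z.1) (hasDerivAt_const s z.2)

theorem has2 (z : ℝ × ℝ) (s : ℝ) :
    HasDerivAt (fun s : ℝ => ((z.1, z.2 + s) : ℝ × ℝ)) (0, 1) s :=
  HasDerivAt.prodMk (hasDerivAt_const s z.1) ((hasDerivAt_id s).const_add z.2)

section slices

variable {v : ℝ × ℝ → ℝ} {O : Set (ℝ × ℝ)} {z : ℝ × ℝ}

theorem diff_D (hO : IsOpen O) (hv : ContDiffOn ℝ 2 v O) (hz : z ∈ O) (e : ℝ × ℝ) :
    DifferentiableAt ℝ (fun y => fderiv ℝ v y e) z := by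
  have h1 : ContDiffAt ℝ 2 v z := hv.contDiffAt (hO.mem_nhds hz)
  have h2 : ContDiffAt ℝ 1 (fderiv ℝ v) z := h1.fderiv_right (by norm_num)
  exact (h2.clm_apply contDiffAt_const).differentiableAt (by norm_num)

theorem diff_v (hO : IsOpen O) (hv : ContDiffOn ℝ 2 v O) (hz : z ∈ O) :
    DifferentiableAt ℝ v z :=
  (hv.contDiffAt (hO.mem_nhds hz)).differentiableAt (by norm_num)

theorem slice1 (hO : IsOpen O) (hv : ContDiffOn ℝ 2 v O) (hz : z ∈ O) :
    (∀ᶠ s in 𝓝 (0 : ℝ), HasDerivAt (fun s : ℝ => v (z.1 + s, z.2)) (D1 v (z.1 + s, z.2)) s) ∧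
    HasDerivAt (fun s : ℝ => D1 v (z.1 + s, z.2)) (D1 (D1 v) z) 0 := by
  constructor
  · have hc : Tendsto (fun s : ℝ => ((z.1 + s, z.2) : ℝ × ℝ)) (𝓝 0) (𝓝 z) := by
      have h := (has1 z 0).continuousAt
      rw [ContinuousAt, add_zero] at h
      exact h
    filter_upwards [hc.eventually (hO.mem_nhds hz)] with s hs
    exact (diff_v hO hv hs).hasFDerivAt.comp_hasDerivAt s (has1 z s)
  · have h1 := diff_D hO hv hz ((1 : ℝ), (0 : ℝ))
    have h2 : HasFDerivAt (D1 v) (fderiv ℝ (D1 v) z) ((z.1 + (0 : ℝ), z.2) : ℝ × ℝ) := by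
      rw [add_zero]
      exact DifferentiableAt.hasFDerivAt h1
    exact h2.comp_hasDerivAt (0 : ℝ) (has1 z 0)

theorem slice2 (hO : IsOpen O) (hv : ContDiffOn ℝ 2 v O) (hz : z ∈ O) :
    (∀ᶠ s in 𝓝 (0 : ℝ), HasDerivAt (fun s : ℝ => v (z.1, z.2 + s)) (D2 v (z.1, z.2 + s)) s) ∧
    HasDerivAt (fun s : ℝ => D2 v (z.1, z.2 + s)) (D2 (D2 v) z) 0 := by
  constructor
  · have hc : Tendsto (fun s : ℝ => ((z.1, z.2 + s) : ℝ × ℝ)) (𝓝 0) (𝓝 z) := by
      have h := (has2 z 0).continuousAt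
      rw [ContinuousAt, add_zero] at h
      exact h
    filter_upwards [hc.eventually (hO.mem_nhds hz)] with s hs
    exact (diff_v hO hv hs).hasFDerivAt.comp_hasDerivAt s (has2 z s)
  · have h1 := diff_D hO hv hz ((0 : ℝ), (1 : ℝ))
    have h2 : HasFDerivAt (D2 v) (fderiv ℝ (D2 v) z) ((z.1, z.2 + (0 : ℝ)) : ℝ × ℝ) := by
      rw [add_zero]
      exact DifferentiableAt.hasFDerivAt h1
    exact h2.comp_hasDerivAt (0 : ℝ) (has2 z 0)

end slices

/-- One variable: `exp (-l ((x + s)² / k + m))`. -/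
theorem exp_slice (l k m x s : ℝ) :
    HasDerivAt (fun s : ℝ => Real.exp (-l * ((x + s) ^ 2 / k + m)))
      (-(2 * l * (x + s) / k) * Real.exp (-l * ((x + s) ^ 2 / k + m))) s := by
  have h1 : HasDerivAt (fun s : ℝ => -l * ((x + s) ^ 2 / k + m)) (-l * (2 * (x + s) / k)) s := by
    have h2 : HasDerivAt (fun s : ℝ => x + s) 1 s := (hasDerivAt_id s).const_add x
    have h3 := ((h2.pow 2).div_const k).add_const m
    have h4 := h3.const_mul (-l)
    refine h4.congr_deriv ?_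
    simp
  refine h1.exp.congr_deriv ?_
  ring

theorem exp_slice2 (l k m x s : ℝ) :
    HasDerivAt (fun s : ℝ => -(2 * l * (x + s) / k) * Real.exp (-l * ((x + s) ^ 2 / k + m)))
      ((-(2 * l / k) + (2 * l * (x + s) / k) ^ 2) * Real.exp (-l * ((x + s) ^ 2 / k + m))) s := by
  have h2 : HasDerivAt (fun s : ℝ => -(2 * l * (x + s) / k)) (-(2 * l / k)) s := by
    have h3 : HasDerivAt (fun s : ℝ => x + s) 1 s := (hasDerivAt_id s).const_add x
    have h4 := ((h3.const_mul (2 * l)).div_const k).neg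
    refine h4.congr_deriv ?_
    ring
  refine (h2.mul (exp_slice l k m x s)).congr_deriv ?_
  ring

theorem tend1 (z : ℝ × ℝ) : Tendsto (fun s : ℝ => ((z.1 + s, z.2) : ℝ × ℝ)) (𝓝 0) (𝓝 z) := by
  have h := (has1 z 0).continuousAt
  rw [ContinuousAt, add_zero] at h
  exact h

theorem tend2 (z : ℝ × ℝ) : Tendsto (fun s : ℝ => ((z.1, z.2 + s) : ℝ × ℝ)) (𝓝 0) (𝓝 z) := by
  have h := (has2 z 0).continuousAt
  rw [ContinuousAt, add_zero] at h
  exact h

theorem no_int_min {κ t₀ q l c E₀ K : ℝ} (hκ : 0 < κ) (hc : 0 < c) {v : ℝ × ℝ → ℝ}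
    {O : Set (ℝ × ℝ)} {z : ℝ × ℝ} (hO : IsOpen O) (hv : ContDiffOn ℝ 2 v O) (hz : z ∈ O)
    (hl : 0 < l)
    (hLv : |D1 (D1 v) z + κ * D2 (D2 v) z| ≤ K * (|D1 v z| + |D2 v z|))
    (hb : K * (|z.1 - t₀| + |z.2 - q| / κ) < 2 * (l * ((z.1 - t₀) ^ 2 + (z.2 - q) ^ 2 / κ) - 1))
    (hmin : IsLocalMin (fun y : ℝ × ℝ =>
      v y - c * (Real.exp (-l * ((y.1 - t₀) ^ 2 + (y.2 - q) ^ 2 / κ)) - E₀)) z) : False := by
  have hmin' : ∀ᶠ y in 𝓝 z, v z - c * (Real.exp (-l * ((z.1 - t₀) ^ 2 + (z.2 - q) ^ 2 / κ)) - E₀)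
      ≤ v y - c * (Real.exp (-l * ((y.1 - t₀) ^ 2 + (y.2 - q) ^ 2 / κ)) - E₀) := hmin
  set x := z.1 - t₀ with hx
  set y := z.2 - q with hy
  set E := Real.exp (-l * (x ^ 2 + y ^ 2 / κ)) with hE
  have hEpos : 0 < E := Real.exp_pos _
  obtain ⟨a1, a2⟩ := slice1 hO hv hz
  obtain ⟨b1, b2⟩ := slice2 hO hv hz
  have k1 := min_test (g := fun s : ℝ => v (z.1 + s, z.2) -
      c * (Real.exp (-l * ((x + s) ^ 2 / 1 + y ^ 2 / κ)) - E₀))
    (g' := fun s : ℝ => D1 v (z.1 + s, z.2) -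
      c * (-(2 * l * (x + s) / 1) * Real.exp (-l * ((x + s) ^ 2 / 1 + y ^ 2 / κ))))
    (g2 := D1 (D1 v) z - c * ((-(2 * l / 1) + (2 * l * (x + 0) / 1) ^ 2) *
      Real.exp (-l * ((x + 0) ^ 2 / 1 + y ^ 2 / κ))))
    (by
      filter_upwards [a1] with s hs
      exact hs.sub (((exp_slice l 1 (y ^ 2 / κ) x s).sub_const E₀).const_mul c))
    (a2.sub ((exp_slice2 l 1 (y ^ 2 / κ) x 0).const_mul c))
    (by
      have h := (tend1 z).eventually hmin'
      show ∀ᶠ s in 𝓝 (0 : ℝ), _ ≤ _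
      filter_upwards [h] with s hs
      have e1 : z.1 + s - t₀ = x + s := by rw [hx]; ring
      simp only [e1] at hs
      show v (z.1 + 0, z.2) - c * (Real.exp (-l * ((x + 0) ^ 2 / 1 + y ^ 2 / κ)) - E₀) ≤
        v (z.1 + s, z.2) - c * (Real.exp (-l * ((x + s) ^ 2 / 1 + y ^ 2 / κ)) - E₀)
      rw [add_zero, add_zero, div_one, div_one, ← hE]
      exact hs)
  have k2 := min_test (g := fun s : ℝ => v (z.1, z.2 + s) -
      c * (Real.exp (-l * ((y + s) ^ 2 / κ + x ^ 2)) - E₀))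
    (g' := fun s : ℝ => D2 v (z.1, z.2 + s) -
      c * (-(2 * l * (y + s) / κ) * Real.exp (-l * ((y + s) ^ 2 / κ + x ^ 2))))
    (g2 := D2 (D2 v) z - c * ((-(2 * l / κ) + (2 * l * (y + 0) / κ) ^ 2) *
      Real.exp (-l * ((y + 0) ^ 2 / κ + x ^ 2))))
    (by
      filter_upwards [b1] with s hs
      exact hs.sub (((exp_slice l κ (x ^ 2) y s).sub_const E₀).const_mul c))
    (b2.sub ((exp_slice2 l κ (x ^ 2) y 0).const_mul c))
    (by
      have h := (tend2 z).eventually hmin'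
      show ∀ᶠ s in 𝓝 (0 : ℝ), _ ≤ _
      filter_upwards [h] with s hs
      have e1 : z.2 + s - q = y + s := by rw [hy]; ring
      have e2 : ∀ w : ℝ, w / κ + x ^ 2 = x ^ 2 + w / κ := fun w => add_comm _ _
      simp only [e1] at hs
      show v (z.1, z.2 + 0) - c * (Real.exp (-l * ((y + 0) ^ 2 / κ + x ^ 2)) - E₀) ≤
        v (z.1, z.2 + s) - c * (Real.exp (-l * ((y + s) ^ 2 / κ + x ^ 2)) - E₀)
      rw [add_zero, add_zero, e2, e2, ← hE]
      exact hs)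
  simp only [add_zero, div_one] at k1 k2
  rw [show -l * (y ^ 2 / κ + x ^ 2) = -l * (x ^ 2 + y ^ 2 / κ) by ring, ← hE] at k2
  rw [← hE] at k1
  obtain ⟨p1, p2⟩ := k1
  obtain ⟨q1, q2⟩ := k2
  have d1 : D1 v z = c * (-(2 * l * x) * E) := by linarith
  have d2 : D2 v z = c * (-(2 * l * y / κ) * E) := by linarith
  have n1 : |D1 v z| = c * (2 * l * E) * |x| := by
    rw [d1, show c * (-(2 * l * x) * E) = -((c * (2 * l * E)) * x) by ring, abs_neg, abs_mul,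
      abs_of_pos (by positivity)]
  have n2 : |D2 v z| = c * (2 * l * E) * (|y| / κ) := by
    rw [d2, show c * (-(2 * l * y / κ) * E) = -((c * (2 * l * E)) * (y / κ)) by ring, abs_neg,
      abs_mul, abs_of_pos (by positivity : 0 < c * (2 * l * E)), abs_div, abs_of_pos hκ]
  have h1 : c * (2 * l * E) * (2 * (l * (x ^ 2 + y ^ 2 / κ) - 1)) ≤
      D1 (D1 v) z + κ * D2 (D2 v) z := by
    have h2 : κ * (c * ((-(2 * l / κ) + (2 * l * y / κ) ^ 2) * E)) ≤ κ * D2 (D2 v) z :=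
      mul_le_mul_of_nonneg_left (by linarith) hκ.le
    have h3 : κ * (c * ((-(2 * l / κ) + (2 * l * y / κ) ^ 2) * E)) =
        c * (-(2 * l) + 4 * l ^ 2 * (y ^ 2 / κ)) * E := by
      field_simp
      ring
    rw [h3] at h2
    have h4 : c * (2 * l * E) * (2 * (l * (x ^ 2 + y ^ 2 / κ) - 1)) =
        c * ((-(2 * l) + (2 * l * x) ^ 2) * E) + c * (-(2 * l) + 4 * l ^ 2 * (y ^ 2 / κ)) * E := by
      ring
    rw [h4]
    linarith
  have h5 := (le_abs_self (D1 (D1 v) z + κ * D2 (D2 v) z)).trans hLv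
  rw [n1, n2, show K * (c * (2 * l * E) * |x| + c * (2 * l * E) * (|y| / κ)) =
    c * (2 * l * E) * (K * (|x| + |y| / κ)) by ring] at h5
  have h6 := mul_lt_mul_of_pos_left hb (by positivity : 0 < c * (2 * l * E))
  linarith

/-- PACKET HOPF. -/
theorem pkHopf : GHopf := by
  intro κ hκ t₀ r v K hr hv hLv hpos hv0
  have hsq : 0 < Real.sqrt κ := Real.sqrt_pos.2 hκ
  have hsq2 : Real.sqrt κ * Real.sqrt κ = κ := Real.mul_self_sqrt hκ.le
  -- the radius
  obtain ⟨R, hR, hRr, hRq⟩ : ∃ R : ℝ, 0 < R ∧ R < r ∧ 2 * (Real.sqrt κ * R) < r := by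
    refine ⟨r / (2 * (1 + 2 * Real.sqrt κ)), by positivity, ?_, ?_⟩
    · rw [div_lt_iff₀ (by positivity)]
      nlinarith
    · rw [show 2 * (Real.sqrt κ * (r / (2 * (1 + 2 * Real.sqrt κ)))) =
        r * Real.sqrt κ / (1 + 2 * Real.sqrt κ) by field_simp, div_lt_iff₀ (by positivity)]
      nlinarith
  set q := Real.sqrt κ * R with hq
  have hqpos : 0 < q := by positivity
  have hq2 : q ^ 2 / κ = R ^ 2 := by
    rw [hq, mul_pow, sq (Real.sqrt κ), hsq2]
    field_simp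
  have hq2' : q ^ 2 = κ * R ^ 2 := by
    rw [hq, mul_pow, sq (Real.sqrt κ), hsq2]
  have hO : IsOpen (box t₀ r) := by
    have h1 : IsOpen {z : ℝ × ℝ | |z.1 - t₀| < r} :=
      isOpen_lt (by fun_prop) continuous_const
    have h2 : IsOpen {z : ℝ × ℝ | |z.2| < r} := isOpen_lt (by fun_prop) continuous_const
    exact h1.inter h2
  let N : ℝ × ℝ → ℝ := fun z => (z.1 - t₀) ^ 2 + (z.2 - q) ^ 2 / κ
  have hNc : Continuous N := by
    show Continuous fun z : ℝ × ℝ => (z.1 - t₀) ^ 2 + (z.2 - q) ^ 2 / κ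
    fun_prop
  -- the ellipse is in the box
  have hy2 : ∀ z : ℝ × ℝ, N z ≤ R ^ 2 → (z.2 - q) ^ 2 ≤ q ^ 2 := by
    intro z hz
    have h1 : (z.2 - q) ^ 2 / κ ≤ R ^ 2 := by
      have := sq_nonneg (z.1 - t₀)
      simp only [N] at hz
      linarith
    rw [div_le_iff₀ hκ] at h1
    rw [hq2']
    linarith
  have hz2 : ∀ z : ℝ × ℝ, N z ≤ R ^ 2 → 0 ≤ z.2 ∧ z.2 ≤ 2 * q := by
    intro z hz
    have h2 := abs_le_of_sq_le_sq' (hy2 z hz) hqpos.le
    constructor <;> linarith [h2.1, h2.2]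
  have hz1 : ∀ z : ℝ × ℝ, N z ≤ R ^ 2 → |z.1 - t₀| ≤ R := by
    intro z hz
    have h1 : (z.1 - t₀) ^ 2 ≤ R ^ 2 := by
      have h2 : 0 ≤ (z.2 - q) ^ 2 / κ := by positivity
      simp only [N] at hz
      linarith
    exact abs_le_of_sq_le_sq h1 hR.le
  have hbox : ∀ z : ℝ × ℝ, N z ≤ R ^ 2 → z ∈ box t₀ r := by
    intro z hz
    refine ⟨(hz1 z hz).trans_lt hRr, ?_⟩
    obtain ⟨h1, h2⟩ := hz2 z hz
    show |z.2| < r
    rw [abs_of_nonneg h1]
    exact h2.trans_lt hRq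
  have hv_nonneg : ∀ z : ℝ × ℝ, N z ≤ R ^ 2 → 0 ≤ v z := by
    intro z hz
    rcases (hz2 z hz).1.eq_or_lt with h | h
    · have h1 : (z.1 - t₀) ^ 2 ≤ 0 := by
        have h2 : (z.2 - q) ^ 2 / κ = R ^ 2 := by
          rw [← h, zero_sub, neg_sq, hq2]
        simp only [N] at hz
        linarith
      have h2 : z.1 - t₀ = 0 := by
        have := sq_nonneg (z.1 - t₀)
        exact pow_eq_zero_iff (two_ne_zero) |>.1 (le_antisymm h1 this)
      have h3 : z = (t₀, 0) := Prod.ext (by linarith) h.symm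
      rw [h3, hv0]
    · exact (hpos z (hbox z hz) h).le
  have hvc : ContinuousOn v (box t₀ r) := hv.continuousOn
  -- compactness
  have hcomp : ∀ a : ℝ, IsCompact {z : ℝ × ℝ | a ≤ N z ∧ N z ≤ R ^ 2} := by
    intro a
    refine IsCompact.of_isClosed_subset
      ((isCompact_Icc (a := t₀ - R) (b := t₀ + R)).prod (isCompact_Icc (a := 0) (b := 2 * q)))
      ((isClosed_le continuous_const hNc).inter (isClosed_le hNc continuous_const)) ?_
    intro z hz
    have h1 := abs_le.1 (hz1 z hz.2)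
    exact ⟨⟨by linarith [h1.1], by linarith [h1.2]⟩, (hz2 z hz.2).1, (hz2 z hz.2).2⟩
  -- lower bound on the inner boundary
  obtain ⟨m, hm, hmv⟩ : ∃ m : ℝ, 0 < m ∧ ∀ z : ℝ × ℝ, N z = R ^ 2 / 4 → m ≤ v z := by
    have hc1 : IsCompact {z : ℝ × ℝ | N z = R ^ 2 / 4} := by
      refine (hcomp 0).of_isClosed_subset (isClosed_eq hNc continuous_const) ?_
      intro z hz
      have h1 : N z = R ^ 2 / 4 := hz
      constructor
      · rw [h1]; positivity
      · rw [h1]; nlinarith [sq_nonneg R]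
    have hne : {z : ℝ × ℝ | N z = R ^ 2 / 4}.Nonempty := by
      refine ⟨(t₀ + R / 2, q), ?_⟩
      show (t₀ + R / 2 - t₀) ^ 2 + (q - q) ^ 2 / κ = R ^ 2 / 4
      rw [sub_self]
      ring
    have hle : ∀ z : ℝ × ℝ, N z = R ^ 2 / 4 → N z ≤ R ^ 2 := by
      intro z hz
      rw [hz]; nlinarith [sq_nonneg R]
    obtain ⟨z₁, hz₁, hz₁m⟩ := hc1.exists_isMinOn hne
      (hvc.mono fun z hz => hbox z (hle z hz))
    refine ⟨v z₁, ?_, fun z hz => hz₁m hz⟩
    refine hpos z₁ (hbox z₁ (hle z₁ hz₁)) ?_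
    have h1 : N z₁ = R ^ 2 / 4 := hz₁
    have h2 : (z₁.2 - q) ^ 2 / κ ≤ R ^ 2 / 4 := by
      have := sq_nonneg (z₁.1 - t₀)
      simp only [N] at h1
      linarith
    rw [div_le_iff₀ hκ] at h2
    have h3 : (z₁.2 - q) ^ 2 ≤ (q / 2) ^ 2 := by
      rw [div_pow, hq2']
      linarith
    have h4 := abs_le_of_sq_le_sq' h3 (by positivity)
    linarith [h4.1]
  -- the barrier
  set M := |K| * (R + R / Real.sqrt κ) with hM
  have hM0 : 0 ≤ M := by positivity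
  set l := 4 / R ^ 2 * (2 + M) with hl
  have hlpos : 0 < l := by positivity
  set E₀ := Real.exp (-l * R ^ 2) with hE₀
  set c := m with hc
  let w : ℝ × ℝ → ℝ := fun y =>
    v y - c * (Real.exp (-l * ((y.1 - t₀) ^ 2 + (y.2 - q) ^ 2 / κ)) - E₀)
  have hwc : ContinuousOn w {z : ℝ × ℝ | R ^ 2 / 4 ≤ N z ∧ N z ≤ R ^ 2} := by
    refine (hvc.mono fun z hz => hbox z hz.2).sub (Continuous.continuousOn ?_)
    fun_prop
  obtain ⟨z₁, hz₁, hz₁m⟩ := (hcomp (R ^ 2 / 4)).exists_isMinOn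
    ⟨(t₀ + R / 2, q), by
      constructor
      · show R ^ 2 / 4 ≤ (t₀ + R / 2 - t₀) ^ 2 + (q - q) ^ 2 / κ
        rw [sub_self]
        ring_nf
        exact le_rfl
      · show (t₀ + R / 2 - t₀) ^ 2 + (q - q) ^ 2 / κ ≤ R ^ 2
        rw [sub_self]
        ring_nf
        nlinarith [sq_nonneg R]⟩ hwc
  have hw1 : 0 ≤ w z₁ := by
    rcases hz₁.2.eq_or_lt with h | h
    · have h1 : Real.exp (-l * N z₁) = E₀ := by rw [h]
      show 0 ≤ v z₁ - c * (Real.exp (-l * N z₁) - E₀)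
      rw [h1, sub_self, mul_zero, sub_zero]
      exact hv_nonneg z₁ hz₁.2
    rcases hz₁.1.eq_or_lt with h' | h'
    · show 0 ≤ v z₁ - c * (Real.exp (-l * N z₁) - E₀)
      have h1 : m ≤ v z₁ := hmv z₁ h'.symm
      have h2 : Real.exp (-l * N z₁) ≤ 1 := by
        rw [Real.exp_le_one_iff]
        have : 0 ≤ N z₁ := by rw [← h']; positivity
        nlinarith
      have h3 : 0 < E₀ := Real.exp_pos _
      have h4 : c * (Real.exp (-l * N z₁) - E₀) ≤ c * 1 :=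
        mul_le_mul_of_nonneg_left (by linarith) hm.le
      linarith
    · exfalso
      have hmin : IsLocalMin w z₁ := by
        have hop : IsOpen {z : ℝ × ℝ | R ^ 2 / 4 < N z ∧ N z < R ^ 2} :=
          (isOpen_lt continuous_const hNc).inter (isOpen_lt hNc continuous_const)
        show ∀ᶠ y in 𝓝 z₁, w z₁ ≤ w y
        filter_upwards [hop.mem_nhds ⟨h', h⟩] with y hy
        exact hz₁m ⟨hy.1.le, hy.2.le⟩
      refine no_int_min hκ hm hO hv (hbox z₁ hz₁.2) hlpos (hLv z₁ (hbox z₁ hz₁.2)) ?_ hmin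
      have h1 : |z₁.2 - q| / κ ≤ R / Real.sqrt κ := by
        have h2 : |z₁.2 - q| ≤ q := abs_le_of_sq_le_sq (hy2 z₁ hz₁.2) hqpos.le
        rw [div_le_div_iff₀ hκ hsq]
        calc |z₁.2 - q| * Real.sqrt κ ≤ q * Real.sqrt κ :=
              mul_le_mul_of_nonneg_right h2 hsq.le
          _ = R * (Real.sqrt κ * Real.sqrt κ) := by rw [hq]; ring
          _ = R * κ := by rw [hsq2]
      have h2 : K * (|z₁.1 - t₀| + |z₁.2 - q| / κ) ≤ M := by
        have h3 : |z₁.1 - t₀| + |z₁.2 - q| / κ ≤ R + R / Real.sqrt κ :=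
          add_le_add (hz1 z₁ hz₁.2) h1
        have h4 : 0 ≤ |z₁.1 - t₀| + |z₁.2 - q| / κ := by positivity
        calc K * (|z₁.1 - t₀| + |z₁.2 - q| / κ) ≤ |K| * (|z₁.1 - t₀| + |z₁.2 - q| / κ) :=
              mul_le_mul_of_nonneg_right (le_abs_self K) h4
          _ ≤ M := mul_le_mul_of_nonneg_left h3 (abs_nonneg K)
      have h5 : 2 + M ≤ l * N z₁ := by
        have h6 : l * (R ^ 2 / 4) = 2 + M := by
          rw [hl]
          field_simp
        rw [← h6]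
        exact mul_le_mul_of_nonneg_left h'.le hlpos.le
      show _ < 2 * (l * N z₁ - 1)
      linarith
  have hw : ∀ z : ℝ × ℝ, R ^ 2 / 4 ≤ N z → N z ≤ R ^ 2 → 0 ≤ w z :=
    fun z h1 h2 => hw1.trans (hz₁m ⟨h1, h2⟩)
  -- the slope
  set c' := c * (E₀ * (l * (R / Real.sqrt κ))) with hc'
  have hc'pos : 0 < c' := by
    have : 0 < E₀ := Real.exp_pos _
    positivity
  have hslope : ∀ h : ℝ, 0 < h → h < q / 2 → c' * h ≤ v (t₀, h) := by
    intro h h1 h2
    have hN : N (t₀, h) = R ^ 2 - (2 * h * R / Real.sqrt κ - h ^ 2 / κ) := by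
      show (t₀ - t₀) ^ 2 + (h - q) ^ 2 / κ = _
      have e1 : (h - q) ^ 2 / κ = h ^ 2 / κ - 2 * h * (q / κ) + q ^ 2 / κ := by ring
      have e2 : q / κ = R / Real.sqrt κ := by
        rw [hq, div_eq_div_iff hκ.ne' hsq.ne']
        calc Real.sqrt κ * R * Real.sqrt κ = R * (Real.sqrt κ * Real.sqrt κ) := by ring
          _ = R * κ := by rw [hsq2]
      rw [e1, hq2, e2, sub_self]
      ring
    have hk : h * R / Real.sqrt κ ≤ 2 * h * R / Real.sqrt κ - h ^ 2 / κ := by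
      have e3 : h ^ 2 / κ ≤ h * R / Real.sqrt κ := by
        rw [div_le_div_iff₀ hκ hsq]
        calc h ^ 2 * Real.sqrt κ = h * (h * Real.sqrt κ) := by ring
          _ ≤ h * (q * Real.sqrt κ) := by
              refine mul_le_mul_of_nonneg_left (mul_le_mul_of_nonneg_right ?_ hsq.le) h1.le
              linarith
          _ = h * R * (Real.sqrt κ * Real.sqrt κ) := by rw [hq]; ring
          _ = h * R * κ := by rw [hsq2]
      have e4 : 2 * h * R / Real.sqrt κ = h * R / Real.sqrt κ + h * R / Real.sqrt κ := by ring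
      linarith
    have hlow : 0 ≤ h * R / Real.sqrt κ := by positivity
    have hN1 : N (t₀, h) ≤ R ^ 2 := by rw [hN]; linarith
    have hN2 : R ^ 2 / 4 ≤ N (t₀, h) := by
      show R ^ 2 / 4 ≤ (t₀ - t₀) ^ 2 + (h - q) ^ 2 / κ
      rw [sub_self, zero_pow two_ne_zero, zero_add, le_div_iff₀ hκ]
      have e5 : (q / 2) ^ 2 ≤ (h - q) ^ 2 := by
        have : q / 2 ≤ q - h := by linarith
        nlinarith
      rw [div_pow, hq2'] at e5
      linarith
    have h3 := hw (t₀, h) hN2 hN1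
    have h4 : 0 ≤ v (t₀, h) - c * (Real.exp (-l * N (t₀, h)) - E₀) := h3
    have h5 : E₀ * (l * (h * R / Real.sqrt κ)) ≤ Real.exp (-l * N (t₀, h)) - E₀ := by
      have e6 : Real.exp (-l * N (t₀, h)) =
          E₀ * Real.exp (l * (2 * h * R / Real.sqrt κ - h ^ 2 / κ)) := by
        rw [hE₀, ← Real.exp_add, hN]
        congr 1
        ring
      have e7 := Real.add_one_le_exp (l * (2 * h * R / Real.sqrt κ - h ^ 2 / κ))
      have e8 : l * (h * R / Real.sqrt κ) ≤ l * (2 * h * R / Real.sqrt κ - h ^ 2 / κ) :=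
        mul_le_mul_of_nonneg_left hk hlpos.le
      have e9 : 0 < E₀ := Real.exp_pos _
      have e10 : E₀ * (l * (h * R / Real.sqrt κ) + 1) ≤
          E₀ * Real.exp (l * (2 * h * R / Real.sqrt κ - h ^ 2 / κ)) :=
        mul_le_mul_of_nonneg_left (by linarith) e9.le
      rw [e6]
      linarith
    have h6 := mul_le_mul_of_nonneg_left h5 hm.le
    have h7 : c' * h = m * (E₀ * (l * (h * R / Real.sqrt κ))) := by
      rw [hc', hc]; ring
    rw [h7]
    linarith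
  -- the derivative
  have hmem : ((t₀, 0) : ℝ × ℝ) ∈ box t₀ r := by
    refine hbox _ ?_
    show (t₀ - t₀) ^ 2 + (0 - q) ^ 2 / κ ≤ R ^ 2
    rw [sub_self, zero_sub, neg_sq, hq2]
    simp
  have hd : HasDerivAt (fun s : ℝ => v (t₀, 0 + s)) (D2 v (t₀, 0 + 0)) 0 :=
    (slice2 (z := ((t₀, 0) : ℝ × ℝ)) hO hv hmem).1.self_of_nhds
  rw [add_zero] at hd
  have ht := hd.tendsto_slope_zero_right
  refine hc'pos.trans_le (ge_of_tendsto ht ?_)
  have hev : ∀ᶠ s in 𝓝[>] (0 : ℝ), s ∈ Ioo (0 : ℝ) (q / 2) :=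
    Ioo_mem_nhdsGT (by positivity)
  filter_upwards [hev] with s hs
  have h1 := hslope s hs.1 hs.2
  simp only [zero_add, hv0, sub_zero, smul_eq_mul]
  rw [inv_mul_eq_div, le_div_iff₀ hs.1]
  exact h1

end Pool.Agent.Helper89.PCap.Hopf
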