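import Pool.Agent.Helper25.PCap.GoalsA
import Pool.Agent.Helper89.PCap.Hopf

/-!
# Packet A9: strict inclusion at boundary points
-/

set_option autoImplicit false

open Set Filter Topology
open scoped ContDiff Real

noncomputable section

namespace Pool.Agent.Helper89.PCap.A9

open Pool.Agent.Helper25.PCap Pool.Agent.Helper89.PCap.Hopf

theorem Sys.mono' {κ C0 : ℝ} {u om : ℝ × ℝ → ℝ} {N N' : Set (ℝ × ℝ)} (h : Sys κ C0 u om N)
    (hN : N' ⊆ N) : Sys κ C0 u om N' :=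
  ⟨h.1.mono hN, h.2.1.mono hN, fun z hz => h.2.2.1 z (hN hz), fun z hz => h.2.2.2 z (hN hz)⟩

/-- A neighbourhood on which `u < α` only happens below `T`. -/
theorem exN {κ C0 : ℝ} (D : TData κ C0) {α : ℝ} {z₀ : ℝ × ℝ} (hz : z₀.1 ≤ D.T z₀.2)
    (hu : D.u z₀ = α) : ∃ N : Set (ℝ × ℝ), IsOpen N ∧ z₀ ∈ N ∧ N ⊆ D.V ∧
      ∀ z ∈ N, D.u z < α → z.1 ≤ D.T z.2 := by
  have hT2 : Continuous fun z : ℝ × ℝ => D.T z.2 := D.Tcont.comp continuous_snd
  rcases hz.lt_or_eq with h | h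
  · exact ⟨{z | z.1 < D.T z.2}, isOpen_lt continuous_fst hT2, h,
      fun z hz => D.VT z hz.le, fun z hz _ => hz.le⟩
  · have hα : α = 1 := by
      rw [← hu, ← D.u1 z₀.2]
      congr 1
      exact Prod.ext h rfl
    have hz0V : z₀ ∈ D.V := D.VT z₀ hz
    have hcu : ContDiffOn ℝ 2 D.u D.V := D.sys.1.of_le (by norm_cast)
    have hcont : ContinuousOn (D1 D.u) D.V := by
      have h1 : ContinuousOn (fderiv ℝ D.u) D.V :=
        hcu.continuousOn_fderiv_of_isOpen D.Vopen (by norm_num)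
      exact h1.clm_apply continuousOn_const
    have hpos : 0 < D1 D.u z₀ := D.upos z₀ hz
    have hev : ∀ᶠ z in 𝓝 z₀, z ∈ D.V ∧ 0 < D1 D.u z := by
      have h1 : ContinuousAt (D1 D.u) z₀ := hcont.continuousAt (D.Vopen.mem_nhds hz0V)
      have h2 : ∀ᶠ z in 𝓝 z₀, z ∈ D.V := D.Vopen.mem_nhds hz0V
      exact h2.and (h1.eventually (lt_mem_nhds hpos))
    obtain ⟨ε, hε, hball⟩ := Metric.eventually_nhds_iff.1 hev
    have hT : ContinuousAt D.T z₀.2 := D.Tcont.continuousAt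
    obtain ⟨δ, hδ, hTball⟩ := Metric.continuousAt_iff.1 hT ε hε
    refine ⟨{z | dist z.1 z₀.1 < ε ∧ dist z.2 z₀.2 < ε ∧ dist z.2 z₀.2 < δ}, ?_, ?_, ?_, ?_⟩
    · have c1 : Continuous fun z : ℝ × ℝ => dist z.1 z₀.1 := by fun_prop
      have c2 : Continuous fun z : ℝ × ℝ => dist z.2 z₀.2 := by fun_prop
      exact (isOpen_lt c1 continuous_const).inter
        ((isOpen_lt c2 continuous_const).inter (isOpen_lt c2 continuous_const))
    · exact ⟨by rw [dist_self]; exact hε, by rw [dist_self]; exact hε,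
        by rw [dist_self]; exact hδ⟩
    · intro z hz
      refine (hball (y := z) ?_).1
      rw [Prod.dist_eq]
      exact max_lt hz.1 hz.2.1
    · intro z hz huz
      by_contra hlt
      rw [not_le] at hlt
      have hTd : dist (D.T z.2) z₀.1 < ε := by
        rw [h]
        exact hTball hz.2.2
      have hmem : ∀ s ∈ Icc (D.T z.2) z.1, (s, z.2) ∈ D.V ∧ 0 < D1 D.u (s, z.2) := by
        intro s hs
        refine hball ?_
        rw [Prod.dist_eq]
        refine max_lt ?_ hz.2.1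
        show dist s z₀.1 < ε
        have h1 := hz.1
        rw [Real.dist_eq] at h1 hTd ⊢
        rw [abs_lt] at h1 hTd ⊢
        constructor
        · linarith [hs.1, hTd.1]
        · linarith [hs.2, h1.2]
      have hder : ∀ s ∈ Icc (D.T z.2) z.1,
          HasDerivAt (fun s : ℝ => D.u (s, z.2)) (D1 D.u (s, z.2)) s := by
        intro s hs
        have h2 := (slice1 (z := (s, z.2)) D.Vopen hcu (hmem s hs).1).1.self_of_nhds
        simp only [add_zero] at h2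
        have h3 : HasDerivAt (fun x : ℝ => x - s) 1 s := (hasDerivAt_id s).sub_const s
        have h2' : HasDerivAt (fun r : ℝ => D.u (s + r, z.2)) (D1 D.u (s, z.2)) (s - s) := by
          rw [sub_self]
          exact h2
        have h4 : HasDerivAt ((fun r : ℝ => D.u (s + r, z.2)) ∘ fun x : ℝ => x - s)
            (D1 D.u (s, z.2) * 1) s := HasDerivAt.comp s h2' h3
        rw [mul_one] at h4
        refine h4.congr_of_eventuallyEq (Eventually.of_forall fun x => ?_)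
        show D.u (x, z.2) = D.u (s + (x - s), z.2)
        rw [add_sub_cancel]
      have hmono : StrictMonoOn (fun s : ℝ => D.u (s, z.2)) (Icc (D.T z.2) z.1) := by
        refine strictMonoOn_of_deriv_pos (convex_Icc _ _)
          (fun s hs => (hder s hs).continuousAt.continuousWithinAt) ?_
        intro s hs
        have hs' := interior_subset hs
        rw [(hder s hs').deriv]
        exact (hmem s hs').2
      have h5 := hmono (left_mem_Icc.2 hlt.le) (right_mem_Icc.2 hlt.le) hlt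
      have h6 : D.u (D.T z.2, z.2) = 1 := D.u1 z.2
      have h7 : D.u (D.T z.2, z.2) < D.u z := h5
      rw [h6] at h7
      rw [hα] at huz
      exact lt_asymm h7 huz

theorem core (h0 : GA0) (h1 : GA1) (hb : GBdry) {κ : ℝ} (hκ : 0 < κ) (hκ1 : κ < 1)
    (S : SFull κ) (D : TData κ S.C0) {α : ℝ} (hα : 0 < α) (hP : PAw S D α)
    {z₀ : ℝ × ℝ} (hz : z₀.1 ≤ D.T z₀.2) (hu : D.u z₀ = α) (ht : 0 < shf κ α z₀.1)
    (hom : D.om z₀ = S.om (shf κ α z₀.1, 0)) : False := by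
  obtain ⟨N, hNo, hzN, hNV, hN⟩ := exN D hz hu
  obtain ⟨N', ut, omt, hN'o, hmem, hsys, heq, hneg⟩ := S.refl2 (shf κ α z₀.1) ht
  have hsc : Continuous fun z : ℝ × ℝ => shf κ α z.1 := by
    unfold shf
    fun_prop
  have hM0 : IsOpen {z : ℝ × ℝ | (shf κ α z.1, z.2) ∈ N'} :=
    hN'o.preimage (hsc.prodMk continuous_snd)
  set M : Set (ℝ × ℝ) := {z : ℝ × ℝ | (shf κ α z.1, z.2) ∈ N'} ∩
    ({z | 0 < shf κ α z.1} ∩ {z | |z.2| < π / 2}) with hM
  have hMo : IsOpen M :=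
    hM0.inter ((isOpen_lt continuous_const hsc).inter
      (isOpen_lt (by fun_prop) continuous_const))
  have hpi : 0 < π / 2 := by positivity
  have hsysM : Sys κ S.C0 (fun z => α * ut (shf κ α z.1, z.2))
      (fun z => omt (shf κ α z.1, z.2)) M :=
    Sys.mono' ((h0 κ hκ hκ1).2.2.1 S.C0 α ut omt N' hα hN'o hsys) inter_subset_left
  refine hb κ S.C0 D.u D.om (fun z => α * ut (shf κ α z.1, z.2))
    (fun z => omt (shf κ α z.1, z.2)) N M z₀.1 z₀.2 α hκ hκ1 S.C0pos hNo hMo hzN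
    ⟨hmem, ht, by show |(0 : ℝ)| < π / 2; rw [abs_zero]; exact hpi⟩
    (Sys.mono' D.sys hNV) hsysM hu ?_ (D.upos z₀ hz) ?_ ?_ ?_
  · show D.om z₀ = omt (shf κ α z₀.1, 0)
    rw [hom, (heq _ hmem le_rfl).2]
  · intro τ hτ
    show α * ut (shf κ α τ, 0) = α
    rw [(heq _ hτ.1 le_rfl).1, S.slit, mul_one]
    rintro (h | h)
    · exact lt_asymm h hτ.2.1
    · exact h Real.sin_zero
  · have hd : HasFDerivAt ut (fderiv ℝ ut (shf κ α z₀.1, 0)) (shf κ α z₀.1, 0) :=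
      ((hsys.1.contDiffAt (hN'o.mem_nhds hmem)).differentiableAt (by norm_num)).hasFDerivAt
    have h2 : HasDerivAt (fun s : ℝ => ((shf κ α z₀.1, 0 + s) : ℝ × ℝ)) (0, 1) 0 :=
      has2 (shf κ α z₀.1, 0) 0
    have h3 : HasDerivAt (fun s : ℝ => α * ut (shf κ α z₀.1, 0 + s))
        (α * D2 ut (shf κ α z₀.1, 0)) 0 := by
      have hd' : HasFDerivAt ut (fderiv ℝ ut (shf κ α z₀.1, 0)) (shf κ α z₀.1, 0 + 0) := by
        rw [add_zero]
        exact hd
      exact (hd'.comp_hasDerivAt (0 : ℝ) h2).const_mul α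
    have h4 : HasDerivAt (fun s : ℝ => α * ut (shf κ α z₀.1, 0 + s))
        (D2 (fun z : ℝ × ℝ => α * ut (shf κ α z.1, z.2)) (z₀.1, 0)) 0 := by
      have hmM : ((z₀.1, 0) : ℝ × ℝ) ∈ M :=
        ⟨hmem, ht, by show |(0 : ℝ)| < π / 2; rw [abs_zero]; exact hpi⟩
      have h5 : DifferentiableAt ℝ (fun z : ℝ × ℝ => α * ut (shf κ α z.1, z.2)) (z₀.1, 0) :=
        (hsysM.1.contDiffAt (hMo.mem_nhds hmM)).differentiableAt (by norm_num)
      have h6 : HasFDerivAt (fun z : ℝ × ℝ => α * ut (shf κ α z.1, z.2))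
          (fderiv ℝ (fun z : ℝ × ℝ => α * ut (shf κ α z.1, z.2)) (z₀.1, 0)) (z₀.1, 0 + 0) := by
        rw [add_zero]
        exact h5.hasFDerivAt
      exact h6.comp_hasDerivAt (0 : ℝ) (has2 (z₀.1, 0) 0)
    rw [h4.unique h3]
    exact mul_neg_of_pos_of_neg hα hneg
  · intro τ θ ϑ hN1 hM1 hϑ heq1
    have hϑ2 : ϑ < π / 2 := (abs_lt.1 hM1.2.2).2
    obtain ⟨e1, e2⟩ := heq _ hM1.1 hϑ.le
    have heq2 : α * S.u (shf κ α τ, ϑ) = D.u (τ, θ) := by
      rw [← heq1]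
      show α * S.u (shf κ α τ, ϑ) = α * ut (shf κ α τ, ϑ)
      rw [e1]
    have hSC : ((shf κ α τ, ϑ) : ℝ × ℝ) ∈ SC := by
      right
      exact (Real.sin_pos_of_pos_of_lt_pi hϑ (by linarith [Real.pi_pos])).ne'
    have hlt : D.u (τ, θ) < α := by
      rw [← heq2]
      calc α * S.u (shf κ α τ, ϑ) < α * 1 := mul_lt_mul_of_pos_left (S.lt1 _ hSC) hα
        _ = α := mul_one α
    have hle := hN (τ, θ) hN1 hlt
    obtain ⟨ϑ', h2, h3, h4, h5⟩ := hP (τ, θ) hle hlt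
    have h6 : S.u (shf κ α τ, ϑ') = S.u (shf κ α τ, ϑ) := by
      rw [h4, ← heq2, mul_div_cancel_left₀ _ hα.ne']
    have hmono := (h1 κ hκ hκ1 S).1
    have h7 : ϑ' = ϑ := by
      rcases lt_trichotomy ϑ' ϑ with h | h | h
      · exact absurd h6 (hmono _ _ _ h2 h hϑ2.le).ne'
      · exact h
      · exact absurd h6 (hmono _ _ _ hϑ.le h h3).ne
    rw [h7] at h5
    show D.om (τ, θ) ≤ omt (shf κ α τ, ϑ)
    rw [e2]
    exact (le_abs_self _).trans h5

/-- PACKET A9. -/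
theorem pkA9 (h0 : GA0) (h1 : GA1) (h8 : GA8) (hb : GBdry) : GA9 := by
  intro κ hκ hκ1 S D α hα hα1 hP z₀ hz hu
  obtain ⟨ht, hle⟩ := h8 κ hκ hκ1 S D α hα hα1 hP z₀ hz hu
  refine lt_of_le_of_ne hle fun heq => ?_
  rcases le_total 0 (D.om z₀) with hs | hs
  · rw [abs_of_nonneg hs] at heq
    exact core h0 h1 hb hκ hκ1 S D hα hP hz hu ht heq
  · rw [abs_of_nonpos hs] at heq
    obtain ⟨D', hT, hu', hom', -⟩ := (h0 κ hκ hκ1).1 S.C0 D
    refine core h0 h1 hb hκ hκ1 S D' hα (z₀ := (z₀.1, -z₀.2)) ?_ ?_ ?_ ht ?_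
    · intro z hz' hlt
      have e1 : D'.u z = D.u (z.1, -z.2) := hu' z.1 z.2
      have e2 : D'.om z = -D.om (z.1, -z.2) := hom' z.1 z.2
      obtain ⟨ϑ, a1, a2, a3, a4⟩ := hP (z.1, -z.2) (by rw [← hT]; exact hz')
        (by rw [← e1]; exact hlt)
      refine ⟨ϑ, a1, a2, ?_, ?_⟩
      · rw [e1]; exact a3
      · rw [e2, abs_neg]; exact a4
    · show z₀.1 ≤ D'.T (-z₀.2)
      rw [hT, neg_neg]
      exact hz
    · show D'.u (z₀.1, -z₀.2) = α
      rw [hu', neg_neg]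
      exact hu
    · show D'.om (z₀.1, -z₀.2) = _
      rw [hom', neg_neg]
      exact heq

end Pool.Agent.Helper89.PCap.A9
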