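import Pool.Agent.Helper25.PCap.GoalsB
import Pool.Agent.Helper89.PCap.Hopf

/-!
# Packet B4: Taylor bounds for the star function
-/

set_option autoImplicit false

open MeasureTheory Set Filter Topology
open scoped ContDiff Real

noncomputable section

namespace Pool.Agent.Helper89.PCap.B4

open Pool.Agent.Helper25.PCap Pool.Agent.Helper89.PCap.Hopf

theorem taylor_pos {g g1 g2 : ℝ → ℝ} {h₀ A : ℝ} (hg : ∀ s, |s| < h₀ → HasDerivAt g (g1 s) s)
    (hg1 : ∀ s, |s| < h₀ → HasDerivAt g1 (g2 s) s) (hA : ∀ s, |s| < h₀ → g2 s ≤ A) {h : ℝ}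
    (h0 : 0 < h) (hh : h < h₀) : g h ≤ g 0 + h * g1 0 + h ^ 2 / 2 * A := by
  have habs : ∀ s, 0 ≤ s → s ≤ h → |s| < h₀ := by
    intro s h1 h2
    rw [abs_of_nonneg h1]
    linarith
  have hφ : ∀ s, |s| < h₀ → HasDerivAt (fun s => g 0 + s * g1 0 + s ^ 2 / 2 * A - g s)
      (g1 0 + s * A - g1 s) s := by
    intro s hs
    have h1 : HasDerivAt (fun s : ℝ => s ^ 2 / 2 * A) (s * A) s := by
      have h2 := (((hasDerivAt_id s).pow 2).div_const 2).mul_const A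
      refine h2.congr_deriv ?_
      simp
    have h3 : HasDerivAt (fun s : ℝ => g 0 + s * g1 0) (g1 0) s := by
      have h4 := ((hasDerivAt_id s).mul_const (g1 0)).const_add (g 0)
      rw [one_mul] at h4
      exact h4
    exact (h3.add h1).sub (hg s hs)
  have hφ1 : ∀ s, |s| < h₀ → HasDerivAt (fun s => g1 0 + s * A - g1 s) (A - g2 s) s := by
    intro s hs
    have h4 := ((hasDerivAt_id s).mul_const A).const_add (g1 0)
    rw [one_mul] at h4
    exact h4.sub (hg1 s hs)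
  obtain ⟨c, hc, hc1⟩ := exists_hasDerivAt_eq_slope
    (fun s => g 0 + s * g1 0 + s ^ 2 / 2 * A - g s) (fun s => g1 0 + s * A - g1 s) h0
    (fun s hs => (hφ s (habs s hs.1 hs.2)).continuousAt.continuousWithinAt)
    (fun s hs => hφ s (habs s hs.1.le hs.2.le))
  obtain ⟨d, hd, hd1⟩ := exists_hasDerivAt_eq_slope
    (fun s => g1 0 + s * A - g1 s) (fun s => A - g2 s) hc.1
    (fun s hs => (hφ1 s (habs s hs.1 (hs.2.trans hc.2.le))).continuousAt.continuousWithinAt)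
    (fun s hs => hφ1 s (habs s hs.1.le (hs.2.le.trans hc.2.le)))
  have h1 : 0 ≤ A - g2 d := sub_nonneg.2 (hA d (habs d hd.1.le (hd.2.le.trans hc.2.le)))
  have h2 : 0 ≤ g1 0 + c * A - g1 c := by
    rw [eq_div_iff (sub_pos.2 hc.1).ne'] at hd1
    have h3 : 0 ≤ (A - g2 d) * (c - 0) := mul_nonneg h1 (by linarith [hc.1])
    rw [hd1] at h3
    simp only [zero_mul, add_zero, sub_self, sub_zero] at h3
    exact h3
  have h4 : g1 0 + c * A - g1 c = ((g 0 + h * g1 0 + h ^ 2 / 2 * A - g h) -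
      (g 0 + 0 * g1 0 + 0 ^ 2 / 2 * A - g 0)) / (h - 0) := hc1
  rw [eq_div_iff (sub_pos.2 h0).ne'] at h4
  have h5 : 0 ≤ (g1 0 + c * A - g1 c) * (h - 0) := mul_nonneg h2 (by linarith)
  rw [h4] at h5
  simp only [zero_mul, add_zero, sub_self, sub_zero, ne_eq, OfNat.ofNat_ne_zero,
    not_false_eq_true, zero_pow, zero_div] at h5
  linarith

theorem taylor_any {g g1 g2 : ℝ → ℝ} {h₀ A : ℝ} (hg : ∀ s, |s| < h₀ → HasDerivAt g (g1 s) s)
    (hg1 : ∀ s, |s| < h₀ → HasDerivAt g1 (g2 s) s) (hA : ∀ s, |s| < h₀ → g2 s ≤ A) {h : ℝ}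
    (hh : |h| < h₀) : g h ≤ g 0 + h * g1 0 + h ^ 2 / 2 * A := by
  rcases lt_trichotomy h 0 with h0 | h0 | h0
  · have hn : ∀ s : ℝ, HasDerivAt (fun s : ℝ => -s) (-1) s := fun s => (hasDerivAt_id s).neg
    have k1 : ∀ s, |s| < h₀ → HasDerivAt (fun s => g (-s)) (-(g1 (-s))) s := by
      intro s hs
      have h1 := HasDerivAt.comp s (hg (-s) (by rw [abs_neg]; exact hs)) (hn s)
      rw [mul_neg_one] at h1
      exact h1
    have k2 : ∀ s, |s| < h₀ → HasDerivAt (fun s => -(g1 (-s))) (g2 (-s)) s := by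
      intro s hs
      have h1 := (HasDerivAt.comp s (hg1 (-s) (by rw [abs_neg]; exact hs)) (hn s)).neg
      rw [mul_neg_one, neg_neg] at h1
      exact h1
    have k3 : ∀ s, |s| < h₀ → g2 (-s) ≤ A := fun s hs => hA _ (by rw [abs_neg]; exact hs)
    have h2 := taylor_pos k1 k2 k3 (h := -h) (by linarith) (by rw [← abs_of_neg h0]; exact hh)
    simp only [neg_neg, neg_zero] at h2
    have h3 : (-h) ^ 2 = h ^ 2 := by ring
    rw [h3] at h2
    linarith
  · rw [h0]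
    simp
  · exact taylor_pos hg hg1 hA h0 (by rw [← abs_of_pos h0]; exact hh)

section D

variable {κ C0 : ℝ} (D : TData κ C0)

theorem smooth_D1 : ContDiffOn ℝ ∞ (D1 D.u) D.V := by
  have h1 : ContDiffOn ℝ ∞ (fderiv ℝ D.u) D.V :=
    D.sys.1.fderiv_of_isOpen D.Vopen (by norm_cast)
  exact h1.clm_apply contDiffOn_const

theorem cont_D1 : ContinuousOn (D1 D.u) D.V := (smooth_D1 D).continuousOn

theorem cont_D11 : ContinuousOn (D1 (D1 D.u)) D.V := by
  have h1 : ContDiffOn ℝ ∞ (fderiv ℝ (D1 D.u)) D.V :=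
    (smooth_D1 D).fderiv_of_isOpen D.Vopen (by norm_cast)
  exact (h1.clm_apply contDiffOn_const).continuousOn

theorem slice_at {v : ℝ × ℝ → ℝ} (hv : ContDiffOn ℝ ∞ v D.V) {τ θ s : ℝ}
    (hs : (τ + s, θ) ∈ D.V) :
    HasDerivAt (fun s : ℝ => v (τ + s, θ)) (D1 v (τ + s, θ)) s := by
  have h1 : DifferentiableAt ℝ v (τ + s, θ) :=
    (hv.contDiffAt (D.Vopen.mem_nhds hs)).differentiableAt (by norm_num)
  exact h1.hasFDerivAt.comp_hasDerivAt s (has1 (τ, θ) s)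

theorem ET_meas (hc : Continuous D.ext) (τ s : ℝ) : MeasurableSet (ET D τ s) := by
  have h1 : IsOpen {θ : ℝ | D.ext (τ, θ) < s} :=
    isOpen_lt (hc.comp (by fun_prop)) continuous_const
  exact measurableSet_Ioc.inter h1.measurableSet

theorem ET_sub (τ s : ℝ) : ET D τ s ⊆ Ioc 0 (2 * π) := fun _ h => h.1

theorem ET_fin (τ s : ℝ) : volume (ET D τ s) ≤ ENNReal.ofReal (2 * π) := by
  refine (measure_mono (ET_sub D τ s)).trans ?_
  rw [Real.volume_Ioc, sub_zero]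

theorem ET_ne (τ s : ℝ) : volume (ET D τ s) ≠ ⊤ :=
  ne_top_of_le_ne_top ENNReal.ofReal_ne_top (ET_fin D τ s)

theorem intOn (τ s : ℝ) {f : ℝ → ℝ} (hf : Continuous f) :
    IntegrableOn f (ET D τ s) := by
  have h1 : IntegrableOn f (Icc 0 (2 * π)) := hf.continuousOn.integrableOn_Icc
  exact h1.mono_set fun θ hθ => ⟨hθ.1.1.le, hθ.1.2⟩

theorem Lam_eq (_hc : Continuous D.ext) {τ s s' : ℝ} (hs : s' ≤ s) :
    LamT D τ s' = ∫ θ in ET D τ s, max 0 (s' - D.ext (τ, θ)) := by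
  unfold LamT
  rw [intervalIntegral.integral_of_le (by positivity)]
  refine setIntegral_eq_of_subset_of_forall_sdiff_eq_zero measurableSet_Ioc (ET_sub D τ s) ?_
  intro θ hθ
  have h1 : s ≤ D.ext (τ, θ) := by
    by_contra h
    rw [not_le] at h
    exact hθ.2 ⟨hθ.1, h⟩
  exact max_eq_left (by linarith)

end D

/-- PACKET B4. -/
theorem pkB4 : GB4 := by
  intro κ hκ hκ1 C0 D τ₀ s₀ p hc hs0 hs1
  set E := ET D τ₀ s₀ with hE
  have hEm : MeasurableSet E := ET_meas D hc τ₀ s₀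
  have hcθ : ∀ τ : ℝ, Continuous fun θ : ℝ => D.ext (τ, θ) := fun τ => hc.comp (by fun_prop)
  have hLam0 : LamT D τ₀ s₀ = ∫ θ in E, (s₀ - D.ext (τ₀, θ)) := by
    rw [Lam_eq D hc le_rfl]
    refine setIntegral_congr_fun hEm fun θ hθ => ?_
    exact max_eq_right (by linarith [hθ.2])
  have hconst : ∀ k : ℝ, ∫ _ in E, k = k * (volume E).toReal := by
    intro k
    rw [setIntegral_const, smul_eq_mul, mul_comm]
    rfl
  constructor
  · intro k hk
    rw [Lam_eq D hc (s := s₀) (s' := s₀ - k) (by linarith), hLam0]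
    have h1 : ∀ θ ∈ E, max 0 (s₀ - k - D.ext (τ₀, θ)) =
        ((s₀ - D.ext (τ₀, θ)) - k) + max 0 (k - (s₀ - D.ext (τ₀, θ))) := by
      intro θ _
      rcases le_total 0 (s₀ - k - D.ext (τ₀, θ)) with h | h
      · rw [max_eq_right h, max_eq_left (by linarith)]
        ring
      · rw [max_eq_left h, max_eq_right (by linarith)]
        ring
    rw [setIntegral_congr_fun hEm h1]
    have i1 : IntegrableOn (fun θ => s₀ - D.ext (τ₀, θ)) E :=
      intOn D τ₀ s₀ (continuous_const.sub (hcθ τ₀))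
    have i2 : IntegrableOn (fun _ : ℝ => k) E := intOn D τ₀ s₀ continuous_const
    have i3 : IntegrableOn (fun θ => max 0 (k - (s₀ - D.ext (τ₀, θ)))) E :=
      intOn D τ₀ s₀ (continuous_const.max (continuous_const.sub
        (continuous_const.sub (hcθ τ₀))))
    have i12 : IntegrableOn (fun θ => (s₀ - D.ext (τ₀, θ)) - k) E := i1.sub i2
    have e1 : ∫ θ in E, (((s₀ - D.ext (τ₀, θ)) - k) + max 0 (k - (s₀ - D.ext (τ₀, θ)))) =
        (∫ θ in E, ((s₀ - D.ext (τ₀, θ)) - k)) +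
          ∫ θ in E, max 0 (k - (s₀ - D.ext (τ₀, θ))) := integral_add i12 i3
    have e2 : ∫ θ in E, ((s₀ - D.ext (τ₀, θ)) - k) =
        (∫ θ in E, (s₀ - D.ext (τ₀, θ))) - ∫ _ in E, k := integral_sub i1 i2
    rw [e1, e2, hconst]
  · intro e he
    set e' := e / (2 * π) with he'
    have hpi : 0 < 2 * π := by positivity
    have he'pos : 0 < e' := by positivity
    -- the compact set
    set Kc : Set ℝ := {θ | θ ∈ Icc 0 (2 * π) ∧ D.ext (τ₀, θ) ≤ s₀} with hKc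
    have hKcomp : IsCompact Kc :=
      isCompact_Icc.inter_right (isClosed_le (hcθ τ₀) continuous_const)
    have hEK : E ⊆ Kc := fun θ hθ => ⟨⟨hθ.1.1.le, hθ.1.2⟩, hθ.2.le⟩
    have hT2 : Continuous fun z : ℝ × ℝ => D.T z.2 := D.Tcont.comp continuous_snd
    have hbelow : ∀ θ ∈ Kc, τ₀ < D.T θ := by
      intro θ hθ
      by_contra h
      have h1 : D.ext (τ₀, θ) = 1 := if_neg h
      have h2 := hθ.2
      rw [h1] at h2
      linarith
    have hev : ∀ᶠ h in 𝓝 (0 : ℝ), ∀ θ ∈ Kc, τ₀ + h < D.T θ ∧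
        D1 (D1 D.u) (τ₀ + h, θ) < D1 (D1 D.u) (τ₀, θ) + 2 * e' := by
      refine hKcomp.eventually_forall_of_forall_eventually
        (P := fun (h θ : ℝ) => τ₀ + h < D.T θ ∧
          D1 (D1 D.u) (τ₀ + h, θ) < D1 (D1 D.u) (τ₀, θ) + 2 * e') ?_
      intro θ hθ
      have c1 : Continuous fun z : ℝ × ℝ => ((τ₀ + z.1, z.2) : ℝ × ℝ) := by fun_prop
      have c2 : Continuous fun z : ℝ × ℝ => ((τ₀, z.2) : ℝ × ℝ) := by fun_prop
      have hV : (τ₀, θ) ∈ D.V := D.VT _ (hbelow θ hθ).le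
      have hGc : ContinuousAt (D1 (D1 D.u)) (τ₀, θ) :=
        (cont_D11 D).continuousAt (D.Vopen.mem_nhds hV)
      have g1 : ContinuousAt (fun z : ℝ × ℝ => D1 (D1 D.u) (τ₀ + z.1, z.2)) (0, θ) := by
        refine ContinuousAt.comp (f := fun z : ℝ × ℝ => ((τ₀ + z.1, z.2) : ℝ × ℝ))
          (g := D1 (D1 D.u)) ?_ c1.continuousAt
        show ContinuousAt (D1 (D1 D.u)) (τ₀ + 0, θ)
        rw [add_zero]
        exact hGc
      have g2 : ContinuousAt (fun z : ℝ × ℝ => D1 (D1 D.u) (τ₀, z.2) + 2 * e') (0, θ) :=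
        (ContinuousAt.comp (f := fun z : ℝ × ℝ => ((τ₀, z.2) : ℝ × ℝ))
          (g := D1 (D1 D.u)) hGc c2.continuousAt).add continuousAt_const
      have hlt1 : ∀ᶠ z : ℝ × ℝ in 𝓝 ((0 : ℝ), θ), τ₀ + z.1 < D.T z.2 := by
        have c3 : Continuous fun z : ℝ × ℝ => τ₀ + z.1 := by fun_prop
        refine (isOpen_lt c3 hT2).mem_nhds ?_
        show τ₀ + 0 < D.T θ
        rw [add_zero]
        exact hbelow θ hθ
      have hlt2 : ∀ᶠ z : ℝ × ℝ in 𝓝 ((0 : ℝ), θ),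
          D1 (D1 D.u) (τ₀ + z.1, z.2) < D1 (D1 D.u) (τ₀, z.2) + 2 * e' := by
        refine g1.eventually_lt g2 ?_
        show D1 (D1 D.u) (τ₀ + 0, θ) < D1 (D1 D.u) (τ₀, θ) + 2 * e'
        rw [add_zero]
        linarith
      exact hlt1.and hlt2
    obtain ⟨h₀, hh₀, hball⟩ := Metric.eventually_nhds_iff.1 hev
    have hball' : ∀ s : ℝ, |s| < h₀ → ∀ θ ∈ Kc, τ₀ + s < D.T θ ∧
        D1 (D1 D.u) (τ₀ + s, θ) < D1 (D1 D.u) (τ₀, θ) + 2 * e' := by
      intro s hs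
      exact hball (by rw [Real.dist_eq, sub_zero]; exact hs)
    refine ⟨h₀, hh₀, fun h hh => ?_⟩
    -- pointwise bound
    have hpt : ∀ θ ∈ E, (s₀ - D.ext (τ₀, θ)) + (p * h - h * D1 D.u (τ₀, θ) -
        h ^ 2 / 2 * D1 (D1 D.u) (τ₀, θ) - e' * h ^ 2) ≤
        s₀ + p * h - D.ext (τ₀ + h, θ) := by
      intro θ hθ
      have hk := hEK hθ
      have hV : ∀ s : ℝ, |s| < h₀ → (τ₀ + s, θ) ∈ D.V :=
        fun s hs => D.VT _ (hball' s hs θ hk).1.le
      have t1 := taylor_any (g := fun s : ℝ => D.u (τ₀ + s, θ))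
        (g1 := fun s : ℝ => D1 D.u (τ₀ + s, θ)) (g2 := fun s : ℝ => D1 (D1 D.u) (τ₀ + s, θ))
        (A := D1 (D1 D.u) (τ₀, θ) + 2 * e')
        (fun s hs => slice_at D D.sys.1 (hV s hs))
        (fun s hs => slice_at D (smooth_D1 D) (hV s hs))
        (fun s hs => (hball' s hs θ hk).2.le) hh
      simp only [add_zero] at t1
      have x1 : D.ext (τ₀, θ) = D.u (τ₀, θ) := if_pos (hbelow θ hk)
      have x2 : D.ext (τ₀ + h, θ) = D.u (τ₀ + h, θ) := if_pos (hball' h hh θ hk).1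
      rw [x1, x2]
      have x3 : h ^ 2 / 2 * (D1 (D1 D.u) (τ₀, θ) + 2 * e') =
        h ^ 2 / 2 * D1 (D1 D.u) (τ₀, θ) + e' * h ^ 2 := by ring
      rw [x3] at t1
      linarith
    -- integrability
    have contK : ∀ f : ℝ × ℝ → ℝ, ContinuousOn f D.V →
        IntegrableOn (fun θ => f (τ₀, θ)) E := by
      intro f hf
      have h1 : ContinuousOn (fun θ : ℝ => f (τ₀, θ)) Kc := by
        refine hf.comp (by fun_prop) ?_
        intro θ hθ
        exact D.VT _ (hbelow θ hθ).le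
      exact (h1.integrableOn_compact hKcomp).mono_set hEK
    have j1 : IntegrableOn (fun θ => s₀ - D.ext (τ₀, θ)) E :=
      intOn D τ₀ s₀ (continuous_const.sub (hcθ τ₀))
    have j2 : IntegrableOn (fun θ => D1 D.u (τ₀, θ)) E := contK _ (cont_D1 D)
    have j3 : IntegrableOn (fun θ => D1 (D1 D.u) (τ₀, θ)) E := contK _ (cont_D11 D)
    have j4 : IntegrableOn (fun θ => s₀ + p * h - D.ext (τ₀ + h, θ)) E :=
      intOn D τ₀ s₀ (continuous_const.sub (hcθ _))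
    have jc : ∀ k : ℝ, IntegrableOn (fun _ : ℝ => k) E := fun k => intOn D τ₀ s₀ continuous_const
    have k1 : IntegrableOn (fun θ => p * h - h * D1 D.u (τ₀, θ)) E :=
      (jc (p * h)).sub (j2.const_mul h)
    have k2 : IntegrableOn (fun θ => p * h - h * D1 D.u (τ₀, θ) -
        h ^ 2 / 2 * D1 (D1 D.u) (τ₀, θ)) E := k1.sub (j3.const_mul (h ^ 2 / 2))
    have k3 : IntegrableOn (fun θ => p * h - h * D1 D.u (τ₀, θ) -
        h ^ 2 / 2 * D1 (D1 D.u) (τ₀, θ) - e' * h ^ 2) E := k2.sub (jc _)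
    have k4 : IntegrableOn (fun θ => (s₀ - D.ext (τ₀, θ)) + (p * h - h * D1 D.u (τ₀, θ) -
        h ^ 2 / 2 * D1 (D1 D.u) (τ₀, θ) - e' * h ^ 2)) E := j1.add k3
    have I1 : ∫ θ in E, ((s₀ - D.ext (τ₀, θ)) + (p * h - h * D1 D.u (τ₀, θ) -
        h ^ 2 / 2 * D1 (D1 D.u) (τ₀, θ) - e' * h ^ 2)) =
        LamT D τ₀ s₀ + (p * h * (volume E).toReal - h * (∫ θ in E, D1 D.u (τ₀, θ)) -
          h ^ 2 / 2 * (∫ θ in E, D1 (D1 D.u) (τ₀, θ)) - e' * h ^ 2 * (volume E).toReal) := by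
      rw [hLam0]
      have a1 : ∫ θ in E, ((s₀ - D.ext (τ₀, θ)) + (p * h - h * D1 D.u (τ₀, θ) -
          h ^ 2 / 2 * D1 (D1 D.u) (τ₀, θ) - e' * h ^ 2)) =
          (∫ θ in E, (s₀ - D.ext (τ₀, θ))) + ∫ θ in E, (p * h - h * D1 D.u (τ₀, θ) -
          h ^ 2 / 2 * D1 (D1 D.u) (τ₀, θ) - e' * h ^ 2) := integral_add j1 k3
      have a2 : ∫ θ in E, (p * h - h * D1 D.u (τ₀, θ) -
          h ^ 2 / 2 * D1 (D1 D.u) (τ₀, θ) - e' * h ^ 2) =
          (∫ θ in E, (p * h - h * D1 D.u (τ₀, θ) - h ^ 2 / 2 * D1 (D1 D.u) (τ₀, θ))) -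
          ∫ _ in E, e' * h ^ 2 := integral_sub k2 (jc _)
      have a3 : ∫ θ in E, (p * h - h * D1 D.u (τ₀, θ) - h ^ 2 / 2 * D1 (D1 D.u) (τ₀, θ)) =
          (∫ θ in E, (p * h - h * D1 D.u (τ₀, θ))) -
          ∫ θ in E, h ^ 2 / 2 * D1 (D1 D.u) (τ₀, θ) := integral_sub k1 (j3.const_mul _)
      have a4 : ∫ θ in E, (p * h - h * D1 D.u (τ₀, θ)) =
          (∫ _ in E, p * h) - ∫ θ in E, h * D1 D.u (τ₀, θ) := integral_sub (jc _) (j2.const_mul _)
      rw [a1, a2, a3, a4, hconst, hconst, integral_const_mul, integral_const_mul]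
    have I2 : ∫ θ in E, ((s₀ - D.ext (τ₀, θ)) + (p * h - h * D1 D.u (τ₀, θ) -
        h ^ 2 / 2 * D1 (D1 D.u) (τ₀, θ) - e' * h ^ 2)) ≤
        ∫ θ in E, (s₀ + p * h - D.ext (τ₀ + h, θ)) := setIntegral_mono_on k4 j4 hEm hpt
    have I3 : ∫ θ in E, (s₀ + p * h - D.ext (τ₀ + h, θ)) ≤ LamT D (τ₀ + h) (s₀ + p * h) := by
      unfold LamT
      rw [intervalIntegral.integral_of_le (by positivity)]
      have m1 : Continuous fun θ => max 0 (s₀ + p * h - D.ext (τ₀ + h, θ)) :=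
        continuous_const.max (continuous_const.sub (hcθ _))
      have b1 : ∫ θ in E, (s₀ + p * h - D.ext (τ₀ + h, θ)) ≤
          ∫ θ in E, max 0 (s₀ + p * h - D.ext (τ₀ + h, θ)) :=
        setIntegral_mono_on j4 (intOn D τ₀ s₀ m1) hEm fun θ _ => le_max_right _ _
      refine b1.trans ?_
      refine setIntegral_mono_set ?_ ?_ ?_
      · exact (m1.continuousOn.integrableOn_Icc (a := 0) (b := 2 * π)).mono_set Ioc_subset_Icc_self
      · exact Eventually.of_forall fun θ => le_max_left _ _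
      · exact (ET_sub D τ₀ s₀).eventuallyLE
    have hvol : (volume E).toReal ≤ 2 * π := by
      refine ENNReal.toReal_le_of_le_ofReal hpi.le (ET_fin D τ₀ s₀)
    have hvol2 : e' * h ^ 2 * (volume E).toReal ≤ e * h ^ 2 := by
      have h1 : e' * h ^ 2 * (volume E).toReal ≤ e' * h ^ 2 * (2 * π) :=
        mul_le_mul_of_nonneg_left hvol (by positivity)
      have h2 : e' * h ^ 2 * (2 * π) = e * h ^ 2 := by
        rw [he']
        field_simp
      linarith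
    have h9 := (I1 ▸ I2).trans I3
    have h10 : h * (p * (volume E).toReal - ∫ θ in E, D1 D.u (τ₀, θ)) =
      p * h * (volume E).toReal - h * (∫ θ in E, D1 D.u (τ₀, θ)) := by ring
    rw [h10]
    linarith

end Pool.Agent.Helper89.PCap.B4
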