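import Pool.Agent.Helper25.PCap.GoalsS
import Pool.Agent.Helper25.PCap.GoalsTools

/-!
# Packet S2: comparison and unimodality of the penalized solutions
-/

set_option autoImplicit false

open MeasureTheory Set Filter Topology
open scoped ContDiff Real

noncomputable section

namespace Pool.Agent.Helper89.PCap.S2

open Pool.Agent.Helper25.PCap

theorem D1_congr {f g : ℝ × ℝ → ℝ} {z : ℝ × ℝ} (h : f =ᶠ[𝓝 z] g) : D1 f =ᶠ[𝓝 z] D1 g := by
  filter_upwards [h.fderiv (𝕜 := ℝ)] with y hy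
  show fderiv ℝ f y (1, 0) = fderiv ℝ g y (1, 0)
  rw [hy]

theorem D2_congr {f g : ℝ × ℝ → ℝ} {z : ℝ × ℝ} (h : f =ᶠ[𝓝 z] g) : D2 f =ᶠ[𝓝 z] D2 g := by
  filter_upwards [h.fderiv (𝕜 := ℝ)] with y hy
  show fderiv ℝ f y (0, 1) = fderiv ℝ g y (0, 1)
  rw [hy]

theorem LL_congr (κ : ℝ) {f g : ℝ × ℝ → ℝ} {z : ℝ × ℝ} (h : f =ᶠ[𝓝 z] g) :
    LL κ f z = LL κ g z := by
  unfold LL
  rw [(D1_congr (D1_congr h)).self_of_nhds, (D1_congr h).self_of_nhds,
    (D2_congr (D2_congr h)).self_of_nhds]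

theorem diffD {f : ℝ × ℝ → ℝ} (hf : ContDiff ℝ 2 f) (e : ℝ × ℝ) :
    Differentiable ℝ (fun y => fderiv ℝ f y e) := by
  have h1 : ContDiff ℝ 1 (fderiv ℝ f) := hf.fderiv_right (by norm_num)
  exact (h1.clm_apply contDiff_const).differentiable (by norm_num)

theorem diffD1 {f : ℝ × ℝ → ℝ} (hf : ContDiff ℝ 2 f) : Differentiable ℝ (D1 f) := diffD hf _

theorem diffD2 {f : ℝ × ℝ → ℝ} (hf : ContDiff ℝ 2 f) : Differentiable ℝ (D2 f) := diffD hf _

theorem D1_sub {f g : ℝ × ℝ → ℝ} (hf : Differentiable ℝ f) (hg : Differentiable ℝ g) :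
    D1 (fun x => f x - g x) = fun x => D1 f x - D1 g x := by
  funext x
  show fderiv ℝ (fun x => f x - g x) x (1, 0) = _
  rw [fderiv_fun_sub (hf x) (hg x)]
  rfl

theorem D2_sub {f g : ℝ × ℝ → ℝ} (hf : Differentiable ℝ f) (hg : Differentiable ℝ g) :
    D2 (fun x => f x - g x) = fun x => D2 f x - D2 g x := by
  funext x
  show fderiv ℝ (fun x => f x - g x) x (0, 1) = _
  rw [fderiv_fun_sub (hf x) (hg x)]
  rfl

theorem LL_sub (κ : ℝ) {f g : ℝ × ℝ → ℝ} (hf : ContDiff ℝ 2 f) (hg : ContDiff ℝ 2 g)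
    (z : ℝ × ℝ) : LL κ (fun x => f x - g x) z = LL κ f z - LL κ g z := by
  have df := hf.differentiable (by norm_num)
  have dg := hg.differentiable (by norm_num)
  unfold LL
  rw [D1_sub df dg, D2_sub df dg, D1_sub (diffD1 hf) (diffD1 hg), D2_sub (diffD2 hf) (diffD2 hg)]
  ring

/-- The reflection. -/
def rho (c : ℝ) (x : ℝ × ℝ) : ℝ × ℝ := (x.1, c - x.2)

theorem rho_has (c : ℝ) (x : ℝ × ℝ) : HasFDerivAt (rho c)
    ((ContinuousLinearMap.fst ℝ ℝ ℝ).prod (-(ContinuousLinearMap.snd ℝ ℝ ℝ))) x :=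
  HasFDerivAt.prodMk hasFDerivAt_fst (hasFDerivAt_snd.const_sub c)

theorem rho_contDiff (c : ℝ) : ContDiff ℝ 2 (rho c) :=
  contDiff_fst.prodMk (contDiff_const.sub contDiff_snd)

theorem D1_rho (c : ℝ) {f : ℝ × ℝ → ℝ} (hf : Differentiable ℝ f) :
    D1 (fun x => f (rho c x)) = fun x => D1 f (rho c x) := by
  funext x
  have h := (hf (rho c x)).hasFDerivAt.comp x (rho_has c x)
  show fderiv ℝ (fun x => f (rho c x)) x (1, 0) = _
  have h2 : fderiv ℝ (fun x => f (rho c x)) x = _ := h.fderiv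
  rw [h2]
  show fderiv ℝ f (rho c x) ((1 : ℝ), -(0 : ℝ)) = _
  rw [neg_zero]
  rfl

theorem D2_rho (c : ℝ) {f : ℝ × ℝ → ℝ} (hf : Differentiable ℝ f) :
    D2 (fun x => f (rho c x)) = fun x => -D2 f (rho c x) := by
  funext x
  have h := (hf (rho c x)).hasFDerivAt.comp x (rho_has c x)
  show fderiv ℝ (fun x => f (rho c x)) x (0, 1) = _
  have h2 : fderiv ℝ (fun x => f (rho c x)) x = _ := h.fderiv
  rw [h2]
  show fderiv ℝ f (rho c x) ((0 : ℝ), -(1 : ℝ)) = -(fderiv ℝ f (rho c x) (0, 1))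
  have h3 : (((0 : ℝ), -(1 : ℝ)) : ℝ × ℝ) = -((0 : ℝ), (1 : ℝ)) := by
    rw [Prod.neg_mk, neg_zero]
  rw [h3, map_neg]

theorem D2_neg {f : ℝ × ℝ → ℝ} (x : ℝ × ℝ) : D2 (fun x => -f x) x = -D2 f x := by
  show fderiv ℝ (fun x => -f x) x (0, 1) = _
  rw [fderiv_fun_neg]
  rfl

theorem LL_rho (κ c : ℝ) {f : ℝ × ℝ → ℝ} (hf : ContDiff ℝ 2 f) (x : ℝ × ℝ) :
    LL κ (fun x => f (rho c x)) x = LL κ f (rho c x) := by
  have df := hf.differentiable (by norm_num)
  unfold LL
  rw [D1_rho c df, D1_rho c (diffD1 hf), D2_rho c df, D2_neg (f := fun x => D2 f (rho c x)),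
    D2_rho c (diffD2 hf), neg_neg]

theorem decay {κ : ℝ} (hκ1 : κ < 1) {δ : ℝ} (hδ : 0 < δ) :
    ∃ M : ℝ, ∀ z : ℝ × ℝ, z.1 ≤ -M → Real.exp ((1 - κ) * z.1) ≤ δ := by
  refine ⟨-(Real.log δ / (1 - κ)), fun z hz => ?_⟩
  rw [neg_neg] at hz
  have h1 : (1 - κ) * z.1 ≤ Real.log δ := by
    have h2 : 0 < 1 - κ := by linarith
    rw [le_div_iff₀ h2] at hz
    linarith
  calc Real.exp ((1 - κ) * z.1) ≤ Real.exp (Real.log δ) := Real.exp_le_exp.2 h1
    _ = δ := Real.exp_log hδ

theorem trig (a s : ℝ) : (Real.sin (a + s)) ^ 2 - (Real.sin (a - s)) ^ 2 =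
    Real.sin (2 * a) * Real.sin (2 * s) := by
  rw [Real.sin_add, Real.sin_sub, Real.sin_two_mul, Real.sin_two_mul]
  ring

/-- PACKET S2. -/
theorem pkS2 (h1 : GMP1) (h : GQF) : GS2 := by
  intro κ k h₀ hκ hκ1 hk m hm
  obtain ⟨hmC, hmb, hmL, hmper, hmev, -⟩ := hm
  constructor
  · intro k' h' m' hkk hhh hm' z
    obtain ⟨hmC', hmb', hmL', -, -, -⟩ := hm'
    have key := h1 κ hκ hκ1 (fun z => m' z - m z) 1 (hmC'.continuous.sub hmC.continuous)
      (fun z => by linarith [(hmb' z).2.1, (hmb z).1])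
      (fun δ hδ => by
        obtain ⟨M, hM⟩ := decay hκ1 hδ
        refine ⟨M, fun z hz => ?_⟩
        have := hM z hz
        linarith [(hmb' z).2.1, (hmb z).2.2])
      (fun z hz => by
        refine ⟨(hmC'.sub hmC).contDiffAt, ?_⟩
        rw [LL_sub κ hmC' hmC, hmL', hmL]
        have q1 : qf h₀ z ≤ qf h' z := h.2 h₀ h' z hhh
        have q0 : 0 ≤ qf h₀ z := ((h.1 h₀).2.2.1 z).1
        have m0 : 0 ≤ m' z := (hmb' z).1
        have a1 : k * qf h₀ z ≤ k' * qf h' z :=
          mul_le_mul hkk q1 q0 (hk.le.trans hkk)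
        have a2 : k * qf h₀ z * m' z ≤ k' * qf h' z * m' z := mul_le_mul_of_nonneg_right a1 m0
        have a3 : k * qf h₀ z * m z ≤ k * qf h₀ z * m' z :=
          mul_le_mul_of_nonneg_left (by linarith) (mul_nonneg hk.le q0)
        linarith)
    have := key z
    linarith
  · intro τ θ θ' hθ hθθ hθ'
    have hpi := Real.pi_pos
    set α := (θ + θ') / 2 with hα
    have hα0 : 0 ≤ α := by rw [hα]; linarith
    have hα1 : α ≤ π / 2 := by rw [hα]; linarith
    let w : ℝ × ℝ → ℝ := fun x => m (rho (2 * α) x) - m x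
    let cl : ℝ → ℝ := fun t => max α (min t (α + π / 2))
    have hwC : ContDiff ℝ 2 w := (hmC.comp (rho_contDiff _)).sub hmC
    have hclc : Continuous cl := continuous_const.max (continuous_id.min continuous_const)
    have hw0 : ∀ t : ℝ, w (t, α) = 0 := by
      intro t
      show m (t, 2 * α - α) - m (t, α) = 0
      rw [two_mul, add_sub_cancel_right, sub_self]
    have hw1 : ∀ t : ℝ, w (t, α + π / 2) = 0 := by
      intro t
      show m (t, 2 * α - (α + π / 2)) - m (t, α + π / 2) = 0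
      have e1 : α + π / 2 = (2 * α - (α + π / 2)) + π := by ring
      have e2 : m (t, α + π / 2) = m (t, 2 * α - (α + π / 2)) := by
        conv_lhs => rw [e1]
        exact hmper t _
      rw [e2, sub_self]
    have key := h1 κ hκ hκ1 (fun x => w (x.1, cl x.2)) 1
      (hwC.continuous.comp (continuous_fst.prodMk (hclc.comp continuous_snd)))
      (fun z => by
        show m (rho (2 * α) (z.1, cl z.2)) - m (z.1, cl z.2) ≤ 1
        linarith [(hmb (rho (2 * α) (z.1, cl z.2))).2.1, (hmb (z.1, cl z.2)).1])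
      (fun δ hδ => by
        obtain ⟨M, hM⟩ := decay hκ1 hδ
        refine ⟨M, fun z hz => ?_⟩
        show m (rho (2 * α) (z.1, cl z.2)) - m (z.1, cl z.2) ≤ δ
        have h2 := hM (z.1, cl z.2) hz
        linarith [(hmb (rho (2 * α) (z.1, cl z.2))).2.1, (hmb (z.1, cl z.2)).2.2])
      (fun z hz => by
        have hz' : 0 < w (z.1, cl z.2) := hz
        have b1 : α < z.2 := by
          by_contra hc
          rw [not_lt] at hc
          have : cl z.2 = α := max_eq_left ((min_le_left _ _).trans hc)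
          rw [this, hw0] at hz'
          exact lt_irrefl _ hz'
        have b2 : z.2 < α + π / 2 := by
          by_contra hc
          rw [not_lt] at hc
          have : cl z.2 = α + π / 2 := by
            show max α (min z.2 (α + π / 2)) = α + π / 2
            rw [min_eq_right hc, max_eq_right (by linarith)]
          rw [this, hw1] at hz'
          exact lt_irrefl _ hz'
        have hcl : ∀ t, α < t → t < α + π / 2 → cl t = t := by
          intro t h3 h4
          show max α (min t (α + π / 2)) = t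
          rw [min_eq_left h4.le, max_eq_right h3.le]
        have hev : (fun x : ℝ × ℝ => w (x.1, cl x.2)) =ᶠ[𝓝 z] w := by
          have o1 : IsOpen {x : ℝ × ℝ | α < x.2 ∧ x.2 < α + π / 2} :=
            (isOpen_lt continuous_const continuous_snd).inter
              (isOpen_lt continuous_snd continuous_const)
          filter_upwards [o1.mem_nhds ⟨b1, b2⟩] with x hx
          rw [hcl x.2 hx.1 hx.2]
        refine ⟨hwC.contDiffAt.congr_of_eventuallyEq hev, ?_⟩
        rw [LL_congr κ hev]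
        have e3 : LL κ w z = LL κ m (rho (2 * α) z) - LL κ m z := by
          have e4 := LL_sub κ (f := fun x => m (rho (2 * α) x)) (g := m)
            (hmC.comp (rho_contDiff _)) hmC z
          rw [LL_rho κ _ hmC] at e4
          exact e4
        rw [e3, hmL, hmL]
        rw [hcl z.2 b1 b2] at hz'
        have hz2 : m z < m (rho (2 * α) z) := sub_pos.1 hz'
        have q0 : 0 ≤ qf h₀ z := ((h.1 h₀).2.2.1 z).1
        have qq : qf h₀ z ≤ qf h₀ (rho (2 * α) z) := by
          refine (h.1 h₀).2.2.2.2.2.2.2 z.1 (2 * α - z.2) z.2 ?_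
          have e5 : (Real.sin z.2) ^ 2 - (Real.sin (2 * α - z.2)) ^ 2 =
              Real.sin (2 * α) * Real.sin (2 * (z.2 - α)) := by
            have f3 := trig α (z.2 - α)
            rw [show α + (z.2 - α) = z.2 by ring, show α - (z.2 - α) = 2 * α - z.2 by ring] at f3
            exact f3
          have s1 : 0 ≤ Real.sin (2 * α) :=
            Real.sin_nonneg_of_nonneg_of_le_pi (by linarith) (by linarith)
          have s2 : 0 ≤ Real.sin (2 * (z.2 - α)) :=
            Real.sin_nonneg_of_nonneg_of_le_pi (by linarith) (by linarith)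
          have s3 := mul_nonneg s1 s2
          linarith
        have m0 : 0 ≤ m (rho (2 * α) z) := (hmb _).1
        have a2 : k * qf h₀ z * m (rho (2 * α) z) ≤
            k * qf h₀ (rho (2 * α) z) * m (rho (2 * α) z) :=
          mul_le_mul_of_nonneg_right (mul_le_mul_of_nonneg_left qq hk.le) m0
        have a3 : k * qf h₀ z * m z ≤ k * qf h₀ z * m (rho (2 * α) z) :=
          mul_le_mul_of_nonneg_left hz2.le (mul_nonneg hk.le q0)
        linarith)
    have h3 := key (τ, θ')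
    have hcl' : cl θ' = θ' := by
      show max α (min θ' (α + π / 2)) = θ'
      rw [min_eq_left (by rw [hα]; linarith), max_eq_right (by rw [hα]; linarith)]
    have h4 : w (τ, cl θ') ≤ 0 := h3
    rw [hcl'] at h4
    have h5 : m (τ, 2 * α - θ') - m (τ, θ') ≤ 0 := h4
    have h6 : 2 * α - θ' = θ := by rw [hα]; ring
    rw [h6] at h5
    linarith

end Pool.Agent.Helper89.PCap.S2
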